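import Pool.Agent.Helper83.QM.Qend

/-!
# QM: the end theorem
-/

set_option autoImplicit false

namespace Pool.Agent.Helper83.QM

open Matrix MvPolynomial TensorProduct AlgebraicGeometry CategoryTheory
open Pool.Agent.Helper49.QU Pool.Agent.Helper15 Pool.Agent.Helper65.CB Pool.Agent.Helper35.BR

/-- **qend**, the ring form -/
theorem qend_points {K : Type} [Field K] [CharZero K] {R : Type} [CommRing R] [IsDomain R]
    [Algebra K R] {r s : ℕ} {N : Fin r → ℕ}
    (q : ∀ i : Fin r, Matrix (Fin (N i)) (Fin (N i)) R) (hq : ∀ i, (q i).IsSymm)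
    (hq3 : ∀ i, ∃ f g : Fin 3 → Fin (N i), ((q i).submatrix f g).det ≠ 0)
    (A : Fin s → Type) [∀ j, Ring (A j)] [∀ j, Algebra R (A j)] [∀ j, Module.Finite R (A j)]
    (m : Fin s → ℕ)
    (hc : ∀ j, Algebra.IsCentral (FractionRing R) (FractionRing R ⊗[R] A j))
    (hs : ∀ j, IsSimpleRing (FractionRing R ⊗[R] A j))
    (hm : ∀ j, Module.finrank (FractionRing R) (FractionRing R ⊗[R] A j) = m j ^ 2)
    (L : Type) [Field L] [Algebra K L]
    (hpt : ∀ f : R, f ≠ 0 → ∃ φ : R →ₐ[K] L, (∀ i, Iso ((q i).map φ)) ∧ φ f ≠ 0 ∧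
      ∀ j, ∃ ρ : A j →+* Matrix (Fin (m j)) (Fin (m j)) L, Over (φ : R →+* L) ρ) :
    ∃ δ : R, δ ≠ 0 ∧ ∀ g : QH q (HomRing R A m),
      ¬ IsNilpotent (g * algebraMap R (QH q (HomRing R A m)) δ) →
      ∃ χ : QH q (HomRing R A m) →ₐ[K] L,
        χ (g * algebraMap R (QH q (HomRing R A m)) δ) ≠ 0 := by
  classical
  have hchR : CharZero R := charZero_of_injective_algebraMap (algebraMap K R).injective
  have hchL : CharZero L := charZero_of_injective_algebraMap (algebraMap K L).injective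
  have hinf : Infinite L := inferInstance
  choose f g hfg using hq3
  choose c0 hc0 using fun i => exists_aniso (q i) (hq i) ⟨f i, g i, hfg i⟩
  obtain ⟨δ1, hδ1, h1⟩ := end_points_good A m hc hs hm L (fun φ => ∀ i, Iso ((q i).map φ)) hpt
  refine ⟨δ1 * ∏ i, (((q i).submatrix (f i) (g i)).det * bil (q i) (c0 i) (c0 i)),
    mul_ne_zero hδ1 (Finset.prod_ne_zero_iff.2 fun i _ => mul_ne_zero (hfg i) (hc0 i)),
    fun x hx => ?_⟩
  have hd : ∀ i, ((q i).submatrix (f i) (g i)).det * bil (q i) (c0 i) (c0 i) ∣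
      δ1 * ∏ i, (((q i).submatrix (f i) (g i)).det * bil (q i) (c0 i) (c0 i)) := fun i =>
    (Finset.dvd_prod_of_mem _ (Finset.mem_univ i)).mul_left _
  exact qh_points (K := K) q hq f g c0 (HomRing R A m) L δ1 h1 _ (dvd_mul_right _ _)
    (fun i => (dvd_mul_right _ _).trans (hd i)) (fun i => (dvd_mul_left _ _).trans (hd i)) x hx

/-- **qend** -/
theorem qend (K : Type) [Field K] [NumberField K] {R : Type} [CommRing R] [IsDomain R]
    [Algebra K R] {r s : ℕ} {N : Fin r → ℕ}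
    (q : ∀ i : Fin r, Matrix (Fin (N i)) (Fin (N i)) R) (hq : ∀ i, (q i).IsSymm)
    (hq3 : ∀ i, ∃ f g : Fin 3 → Fin (N i), ((q i).submatrix f g).det ≠ 0)
    (A : Fin s → Type) [∀ j, Ring (A j)] [∀ j, Algebra R (A j)] [∀ j, Module.Finite R (A j)]
    (m : Fin s → ℕ)
    (hc : ∀ j, Algebra.IsCentral (FractionRing R) (FractionRing R ⊗[R] A j))
    (hs : ∀ j, IsSimpleRing (FractionRing R ⊗[R] A j))
    (hm : ∀ j, Module.finrank (FractionRing R) (FractionRing R ⊗[R] A j) = m j ^ 2)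
    (L : Type) [Field L] [Algebra K L] [FiniteDimensional K L]
    (hpt : ∀ f : R, f ≠ 0 → ∃ φ : R →ₐ[K] L, (∀ i, Iso ((q i).map φ)) ∧ φ f ≠ 0 ∧
      ∀ j, ∃ ρ : A j →+* Matrix (Fin (m j)) (Fin (m j)) L, Over (φ : R →+* L) ρ) :
    ∃ δ : R, δ ≠ 0 ∧ ∀ (X : Scheme.{0}) (t : X ⟶ Spec (CommRingCat.of K)),
      DominatedOver K X (Spec (CommRingCat.of (Localization.Away
        (algebraMap R (QH q (HomRing R A m)) δ)))) t
        (Spec.map (CommRingCat.ofHom (algebraMap K (Localization.Away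
          (algebraMap R (QH q (HomRing R A m)) δ))))) →
      PotentiallyDense K X t := by
  obtain ⟨δ, hδ, h⟩ := qend_points q hq hq3 A m hc hs hm L hpt
  exact ⟨δ, hδ, fun X t hX => pd_of_points K _ L h X t hX⟩

end Pool.Agent.Helper83.QM
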