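import Mathlib

/-!
# QM: the cone property for points with values in an extension
-/

set_option autoImplicit false

namespace Pool.Agent.Helper83.QM

open Polynomial

/-- substituting `X * t_l` in a homogeneous polynomial -/
theorem aeval_scaleM {K M : Type} [Field K] [Field M] [Algebra K M] {N : ℕ} (t : Fin N → M)
    (d : ℕ) (f : MvPolynomial (Fin N) K) (hf : f.IsHomogeneous d) :
    MvPolynomial.aeval (fun l => (X : M[X]) * C (t l)) f = X ^ d * C (MvPolynomial.aeval t f) := by
  classical
  have h1 : MvPolynomial.aeval (fun l => (X : M[X]) * C (t l)) f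
      = ∑ m ∈ f.support, C (algebraMap K M (f.coeff m)) * ∏ l, ((X : M[X]) * C (t l)) ^ m l := by
    rw [MvPolynomial.aeval_def, MvPolynomial.eval₂_eq']
    rfl
  have h2 : MvPolynomial.aeval t f =
      ∑ m ∈ f.support, algebraMap K M (f.coeff m) * ∏ l, (t l) ^ m l := by
    rw [MvPolynomial.aeval_def, MvPolynomial.eval₂_eq']
  rw [h1, h2, map_sum, Finset.mul_sum]
  refine Finset.sum_congr rfl fun m hm => ?_
  have hd : ∑ l, m l = d := by
    have := hf (MvPolynomial.mem_support_iff.mp hm)
    rw [Finsupp.weight_apply] at this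
    simpa [Finsupp.sum_fintype] using this
  rw [map_mul, map_prod]
  have h3 : ∏ l, ((X : M[X]) * C (t l)) ^ m l = X ^ d * ∏ l, C (t l) ^ m l := by
    rw [← hd, ← Finset.prod_pow_eq_pow_sum, ← Finset.prod_mul_distrib]
    exact Finset.prod_congr rfl fun l _ => mul_pow _ _ _
  rw [h3]
  simp only [map_pow]
  ring

/-- the cone property for the quotient by a homogeneous ideal -/
theorem coneM_of_homogeneous {K M : Type} [Field K] [Field M] [Algebra K M] {N : ℕ}
    (I : Ideal (MvPolynomial (Fin N) K))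
    (hI : ∀ f ∈ I, ∀ d : ℕ, MvPolynomial.homogeneousComponent d f ∈ I)
    (φ : (MvPolynomial (Fin N) K ⧸ I) →ₐ[K] M) :
    ∃ ψ : (MvPolynomial (Fin N) K ⧸ I) →ₐ[K] M[X], ∀ l,
      ψ (Ideal.Quotient.mk I (MvPolynomial.X l)) =
        X * C (φ (Ideal.Quotient.mk I (MvPolynomial.X l))) := by
  classical
  set t : Fin N → M := fun l => φ (Ideal.Quotient.mk I (MvPolynomial.X l)) with ht
  have hφ : ∀ f : MvPolynomial (Fin N) K, MvPolynomial.aeval t f = φ (Ideal.Quotient.mk I f) := by
    intro f
    have h : (φ.comp (Ideal.Quotient.mkₐ K I)) = MvPolynomial.aeval t := by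
      apply MvPolynomial.algHom_ext
      intro l
      simp [ht]
    rw [← h]
    rfl
  have hz : ∀ f : MvPolynomial (Fin N) K, f ∈ I →
      MvPolynomial.aeval (fun l => (X : M[X]) * C (t l)) f = 0 := by
    intro f hf
    rw [← MvPolynomial.sum_homogeneousComponent f, map_sum]
    refine Finset.sum_eq_zero fun d _ => ?_
    rw [aeval_scaleM t d _ (MvPolynomial.homogeneousComponent_isHomogeneous d f), hφ,
      Ideal.Quotient.eq_zero_iff_mem.mpr (hI f hf d), map_zero, map_zero, mul_zero]
  refine ⟨Ideal.Quotient.liftₐ I (MvPolynomial.aeval (fun l => (X : M[X]) * C (t l))) hz, ?_⟩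
  intro l
  change Ideal.Quotient.liftₐ I (MvPolynomial.aeval (fun l => (X : M[X]) * C (t l))) hz
    ((Ideal.Quotient.mk I) (MvPolynomial.X l)) = _
  rw [Ideal.Quotient.liftₐ_apply, Ideal.Quotient.lift_mk]
  simp [ht]

end Pool.Agent.Helper83.QM
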