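import Pool.Agent.Helper18.CL.AlgL
import Pool.Agent.Helper17.CL.NmIff
import Pool.Agent.Helper83.BR.Close
import Pool.Agent.Helper83.RelQ.Defs
import Pool.Agent.Helper11.QU.P3
import Pool.Agent.Helper16.QM.Conic

/-!
# QM: points at which the quadrics are isotropic over one extension
-/

set_option autoImplicit false

namespace Pool.Agent.Helper83.QM

open NumberField Pool.Agent.Helper4.CB Matrix MvPolynomial
open Pool.Agent.Helper49.QU Pool.Agent.Helper83.RelQ Pool.Agent.Helper83.BR
open Pool.Agent.Helper69.CB (vl TriDeg)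

/-- one finite extension for all conics with symbols which are units at the bad places -/
theorem exists_conic_field (M : Type) [Field M] [NumberField M] (J : ℕ) (hJ : 2 ≤ J) :
    ∃ (L : Type) (_ : Field L) (_ : NumberField L) (_ : Algebra M L), ∀ a b : M, a ≠ 0 → b ≠ 0 →
      (∀ p : Pl M, nm p ≡ 1 [MOD 2 ^ J] → vl p a = 1 ∧ vl p b = 1) →
      ∃ x y : L, x ^ 2 = algebraMap M L a * y ^ 2 + algebraMap M L b := by
  obtain ⟨L, iL, aL, hfin, -, hL⟩ := Pool.Agent.Helper18.CL.algL M 2 J Nat.prime_two hJ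
  have hN : NumberField L := NumberField.of_module_finite M L
  refine ⟨L, iL, hN, aL, fun a b ha hb h => ?_⟩
  have : NeZero (2 : ℕ) := ⟨two_ne_zero⟩
  obtain ⟨x, hx⟩ := (Pool.Agent.Helper17.CL.isNm_iff _ _).1 (hL a b ha hb h)
  refine ⟨x 0, x 1, ?_⟩
  rw [← hx]
  unfold Pool.Agent.Helper18.CL.nf
  rw [Matrix.det_fin_two]
  have e : (0 - 1 : Fin 2) = 1 := rfl
  simp [e]
  try ring

/-- two extensions in a common one -/
theorem exists_common_two (M : Type) [Field M] [NumberField M] (L1 L2 : Type) [Field L1]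
    [NumberField L1] [Algebra M L1] [Field L2] [NumberField L2] [Algebra M L2] :
    ∃ (L : Type) (_ : Field L) (_ : NumberField L) (_ : Algebra M L),
      Nonempty (L1 →ₐ[M] L) ∧ Nonempty (L2 →ₐ[M] L) := by
  have hf1 : FiniteDimensional M L1 := by
    have : IsScalarTower ℚ M L1 := inferInstance
    exact Module.Finite.right ℚ M L1
  have hf2 : FiniteDimensional M L2 := by
    have : IsScalarTower ℚ M L2 := inferInstance
    exact Module.Finite.right ℚ M L2
  let f1 : L1 →ₐ[M] AlgebraicClosure M := IsAlgClosed.lift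
  let f2 : L2 →ₐ[M] AlgebraicClosure M := IsAlgClosed.lift
  have h1 : FiniteDimensional M f1.fieldRange :=
    Module.Finite.equiv (AlgEquiv.ofInjectiveField f1).toLinearEquiv
  have h2 : FiniteDimensional M f2.fieldRange :=
    Module.Finite.equiv (AlgEquiv.ofInjectiveField f2).toLinearEquiv
  let E : IntermediateField M (AlgebraicClosure M) := f1.fieldRange ⊔ f2.fieldRange
  have hE : FiniteDimensional M E := IntermediateField.finiteDimensional_sup _ _
  have hN : NumberField E := NumberField.of_module_finite M E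
  have e1 : f1.fieldRange ≤ E := le_sup_left
  have e2 : f2.fieldRange ≤ E := le_sup_right
  exact ⟨E, inferInstance, hN, inferInstance,
    ⟨(IntermediateField.inclusion e1).comp (AlgEquiv.ofInjectiveField f1).toAlgHom⟩,
    ⟨(IntermediateField.inclusion e2).comp (AlgEquiv.ofInjectiveField f2).toAlgHom⟩⟩

variable {R : Type} [CommRing R] {n r : ℕ} {N : Fin r → ℕ}

/-- the elements to be made units at the bad places -/
noncomputable def sm (a : MvPolynomial (Fin n) R)
    (q : ∀ i : Fin r, Matrix (Fin (N i)) (Fin (N i)) (MvPolynomial (Fin n) R)) :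
    Unit ⊕ (Fin r ⊕ Fin r) → MvPolynomial (Fin (vn N + n)) R :=
  Sum.elim (fun _ => incR (N := N) n R a) (Sum.elim (aQR N q) (bQR N q))

/-- at a point of the larger ring the quadrics are isotropic over the extension -/
theorem iso_of_point {E L : Type} [CommRing E] [Field L]
    (q : ∀ i : Fin r, Matrix (Fin (N i)) (Fin (N i)) (MvPolynomial (Fin n) R))
    (hq : ∀ i, (q i).IsSymm) (φ : MvPolynomial (Fin (vn N + n)) R →+* L) (i : Fin r)
    (ha : φ (aQR N q i) ≠ 0) (hb : φ (bQR N q i) ≠ 0) (x y : L)
    (hxy : x ^ 2 = φ (aQR N q i) * y ^ 2 + φ (bQR N q i)) :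
    Iso ((q i).map fun z => φ (incR n N R z)) := by
  have hB : ((incBR N q i).map φ) = (q i).map fun z => φ (incR n N R z) := rfl
  have ea : φ (aQR N q i) = qa ((q i).map fun z => φ (incR n N R z))
      (fun c j => φ (gvR n N R i c j)) := by
    unfold aQR qa
    rw [map_neg, Pool.Agent.Helper11.QU.map_D2, hB]
  have eb : φ (bQR N q i) = qb ((q i).map fun z => φ (incR n N R z))
      (fun c j => φ (gvR n N R i c j)) := by
    unfold bQR qb
    rw [map_neg, map_mul, map_mul, Pool.Agent.Helper11.QU.map_D1, Pool.Agent.Helper11.QU.map_D2,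
      Pool.Agent.Helper11.QU.map_D3, hB]
  rw [eb] at hb hxy
  rw [ea] at hxy
  unfold qb at hb
  have hb' := neg_ne_zero.1 hb
  exact (Pool.Agent.Helper16.QM.iso_of_conic _ ((hq i).map _) _
    (left_ne_zero_of_mul (left_ne_zero_of_mul hb')) (right_ne_zero_of_mul (left_ne_zero_of_mul hb'))
    (right_ne_zero_of_mul hb') x y hxy).1

end Pool.Agent.Helper83.QM
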