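import Pool.Agent.Helper49.QU.Defs

/-!
# QM: quadric factors over the ring representing homomorphisms of Azumaya algebras, definitions
-/

set_option autoImplicit false

namespace Pool.Agent.Helper83.QM

open Matrix Pool.Agent.Helper49.QU

/-- an isotropic vector outside the radical -/
def Iso {L : Type} [Field L] {N : ℕ} (B : Matrix (Fin N) (Fin N) L) : Prop :=
  ∃ e : Fin N → L, bil B e e = 0 ∧ ∃ w, bil B e w ≠ 0

/-- rank at least three -/
def Rk3 {L : Type} [Field L] {N : ℕ} (B : Matrix (Fin N) (Fin N) L) : Prop :=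
  ∃ f g : Fin 3 → Fin N, (B.submatrix f g).det ≠ 0

/-- the coordinate ring over `H` of the fibre product of the (affine cones of the) quadric bundles
`B i`, `i < r`, over `R` -/
abbrev QH {R : Type} [CommRing R] {r : ℕ} {N : Fin r → ℕ}
    (B : ∀ i : Fin r, Matrix (Fin (N i)) (Fin (N i)) R) (H : Type) [CommRing H] [Algebra R H] :
    Type :=
  MvPolynomial (Σ i : Fin r, Fin (N i)) H ⧸ Ideal.span
    (Set.range fun i : Fin r => ∑ j, ∑ k, MvPolynomial.C (algebraMap R H (B i j k)) *
      MvPolynomial.X (⟨i, j⟩ : Σ i : Fin r, Fin (N i)) *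
        MvPolynomial.X (⟨i, k⟩ : Σ i : Fin r, Fin (N i)))

end Pool.Agent.Helper83.QM
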