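import Pool.Agent.Helper83.QM.Defs

/-!
# QM, Q2: elimination of one quadric
-/

set_option autoImplicit false

namespace Pool.Agent.Helper83.QM

open Matrix Pool.Agent.Helper49.QU MvPolynomial

theorem map_bil' {R S : Type} [CommRing R] [CommRing S] (f : R →+* S) {N : ℕ}
    (B : Matrix (Fin N) (Fin N) R) (v w : Fin N → R) :
    f (bil B v w) = bil (B.map f) (fun j => f (v j)) (fun j => f (w j)) := by
  unfold bil
  rw [map_sum]
  refine Finset.sum_congr rfl fun i _ => ?_
  rw [map_sum]
  refine Finset.sum_congr rfl fun j _ => ?_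
  rw [map_mul, map_mul, Matrix.map_apply]

theorem bil_line {R : Type} [CommRing R] {N : ℕ} (B : Matrix (Fin N) (Fin N) R) (hB : B.IsSymm)
    (u c : Fin N → R) (z : R) :
    bil B (u + z • c) (u + z • c) = bil B c c * z ^ 2 + 2 * bil B u c * z + bil B u u := by
  have h1 := bil_comm hB c u
  rw [bil_eq, bil_eq] at h1
  rw [bil_eq, bil_eq, bil_eq, bil_eq]
  simp only [map_add, LinearMap.add_apply, map_smul, LinearMap.smul_apply, h1, smul_eq_mul]
  ring

/-- pseudo-division by a quadratic polynomial -/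
theorem pseudo {A : Type} [CommRing A] (D β q : A) (p : Polynomial A) :
    ∃ (k : ℕ) (a a' : A) (s : Polynomial A), Polynomial.C (D ^ k) * p =
      (Polynomial.C D * Polynomial.X ^ 2 + Polynomial.C (2 * β) * Polynomial.X +
        Polynomial.C q) * s + Polynomial.C a + Polynomial.C a' * Polynomial.X := by
  induction p using Polynomial.induction_on with
  | C a => exact ⟨0, a, 0, 0, by simp⟩
  | add p p' h h' =>
    obtain ⟨k, a, a', s, h⟩ := h
    obtain ⟨l, b, b', t, h'⟩ := h'
    refine ⟨k + l, D ^ l * a + D ^ k * b, D ^ l * a' + D ^ k * b',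
      Polynomial.C (D ^ l) * s + Polynomial.C (D ^ k) * t, ?_⟩
    have e1 : Polynomial.C (D ^ (k + l)) * (p + p') =
        Polynomial.C (D ^ l) * (Polynomial.C (D ^ k) * p) +
          Polynomial.C (D ^ k) * (Polynomial.C (D ^ l) * p') := by
      rw [pow_add, Polynomial.C_mul]
      ring
    rw [e1, h, h']
    simp only [map_add, map_mul]
    ring
  | monomial n c h =>
    obtain ⟨k, a, a', s, h⟩ := h
    refine ⟨k + 1, -(a' * q), D * a - 2 * β * a', Polynomial.C D * Polynomial.X * s +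
      Polynomial.C a', ?_⟩
    have e1 : Polynomial.C (D ^ (k + 1)) * (Polynomial.C c * Polynomial.X ^ (n + 1)) =
        Polynomial.C D * Polynomial.X *
          (Polynomial.C (D ^ k) * (Polynomial.C c * Polynomial.X ^ n)) := by
      rw [pow_succ D, Polynomial.C_mul]
      ring
    rw [e1, h]
    simp only [map_mul, map_sub, map_neg]
    ring

/-- the statement of Q1 -/
def DenseIso : Prop := ∀ (L : Type) [Field L] [CharZero L] (N : ℕ)
  (B : Matrix (Fin N) (Fin N) L), B.IsSymm → Rk3 B → Iso B → ∀ c0 : Fin N → L,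
  bil B c0 c0 ≠ 0 → ∀ G : MvPolynomial (Fin N) L, G ≠ 0 →
  ∃ (u : Fin N → L) (z : L), eval u G ≠ 0 ∧ bil B (u + z • c0) (u + z • c0) = 0

/-- the statement of Q1b -/
def DiscNe : Prop := ∀ (L : Type) [Field L] [CharZero L] (N : ℕ)
  (B : Matrix (Fin N) (Fin N) L), B.IsSymm → Rk3 B → ∀ c0 : Fin N → L, bil B c0 c0 ≠ 0 →
  ∃ u : Fin N → L, bil B u c0 ^ 2 - bil B c0 c0 * bil B u u ≠ 0

/-- **Q2**, over Q1 and Q1b -/
theorem elim_of (hQ1 : DenseIso) (hQ1b : DiscNe) {H : Type} [CommRing H] {N : ℕ}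
    (B : Matrix (Fin N) (Fin N) H) (hB : B.IsSymm)
    (c0 : Fin N → H) (c : MvPolynomial (Fin N) H) {Ω : Type} [Field Ω] (h : H →+* Ω)
    (hc : h (bil B c0 c0) ≠ 0) (u0 : Fin N → Ω) (hq : bil (B.map h) u0 u0 = 0)
    (hcu : eval₂ h u0 c ≠ 0) :
    ∃ g : H, h g ≠ 0 ∧ ∀ (L : Type) [Field L] [CharZero L] (χ : H →+* L), χ g ≠ 0 →
      Rk3 (B.map χ) → Iso (B.map χ) →
      ∃ u : Fin N → L, bil (B.map χ) u u = 0 ∧ eval₂ χ u c ≠ 0 := by
  classical
  let BA : Matrix (Fin N) (Fin N) (MvPolynomial (Fin N) H) := B.map C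
  let β : MvPolynomial (Fin N) H := bil BA X (fun j => C (c0 j))
  let q : MvPolynomial (Fin N) H := bil BA X X
  let sh : MvPolynomial (Fin N) H →+* Polynomial (MvPolynomial (Fin N) H) :=
    eval₂Hom (Polynomial.C.comp C) (fun j => Polynomial.C (X j) +
      Polynomial.C (C (c0 j)) * Polynomial.X)
  obtain ⟨k, α, α', s, hs⟩ := pseudo (C (bil B c0 c0)) β q (sh c)
  -- evaluation
  have key : ∀ {L : Type} [Field L] (χ : H →+* L) (u : Fin N → L) (z : L),
      χ (bil B c0 c0) ^ k * eval₂ χ (u + z • fun j => χ (c0 j)) c =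
        bil (B.map χ) (u + z • fun j => χ (c0 j)) (u + z • fun j => χ (c0 j)) *
          Polynomial.eval₂ (eval₂Hom χ u) z s + eval₂ χ u α + eval₂ χ u α' * z := by
    intro L _ χ u z
    have h1 := congrArg (Polynomial.eval₂ (eval₂Hom χ u) z) hs
    simp only [Polynomial.eval₂_add, Polynomial.eval₂_mul, Polynomial.eval₂_C,
      Polynomial.eval₂_X, Polynomial.eval₂_pow, map_pow, map_mul, coe_eval₂Hom, eval₂_C] at h1
    have h2 : Polynomial.eval₂ (eval₂Hom χ u) z (sh c) =
        eval₂ χ (u + z • fun j => χ (c0 j)) c := by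
      have h3 : (Polynomial.eval₂RingHom (eval₂Hom χ u) z).comp sh =
          eval₂Hom χ (u + z • fun j => χ (c0 j)) := by
        refine MvPolynomial.ringHom_ext (fun a => ?_) (fun j => ?_)
        · simp [sh]
        · simp [sh]
          try ring
      exact congrArg (fun f : MvPolynomial (Fin N) H →+* L => f c) h3
    have hBχ : (BA.map (eval₂Hom χ u)) = B.map χ := by
      ext i j
      simp [BA]
    have h4 : eval₂ χ u β = bil (B.map χ) u (fun j => χ (c0 j)) := by
      have h5 := map_bil' (eval₂Hom χ u) BA X (fun j => C (c0 j))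
      rw [hBχ] at h5
      simpa [β] using h5
    have h6 : eval₂ χ u q = bil (B.map χ) u u := by
      have h5 := map_bil' (eval₂Hom χ u) BA X X
      rw [hBχ] at h5
      simpa [q] using h5
    have h7 : χ (bil B c0 c0) = bil (B.map χ) (fun j => χ (c0 j)) (fun j => χ (c0 j)) :=
      map_bil' χ B c0 c0
    have h8 := bil_line (B.map χ) (hB.map _) u (fun j => χ (c0 j)) z
    rw [← h7] at h8
    rw [h2] at h1
    rw [h1, h8, ← h4, ← h6]
    have h9 : eval₂ χ u (2 : MvPolynomial (Fin N) H) = 2 := map_ofNat (eval₂Hom χ u) 2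
    rw [h9]
  -- a coefficient of `α`
  have hα0 : eval₂ h u0 α ≠ 0 := by
    have h1 := key h u0 0
    rw [zero_smul, add_zero, hq, zero_mul, zero_add, mul_zero, add_zero] at h1
    rw [← h1]
    exact mul_ne_zero (pow_ne_zero _ hc) hcu
  obtain ⟨m, hm⟩ : ∃ m, h (coeff m α) ≠ 0 := by
    by_contra hcon
    push Not at hcon
    apply hα0
    have h1 : map h α = 0 := by
      ext m
      rw [coeff_map, hcon m, coeff_zero]
    rw [← eval_map, h1, map_zero]
  refine ⟨bil B c0 c0 * coeff m α, by rw [map_mul]; exact mul_ne_zero hc hm, ?_⟩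
  intro L _ _ χ hχ hrk hiso
  rw [map_mul] at hχ
  have hD : χ (bil B c0 c0) ≠ 0 := left_ne_zero_of_mul hχ
  have hD' : bil (B.map χ) (fun j => χ (c0 j)) (fun j => χ (c0 j)) ≠ 0 := by
    rw [← map_bil' χ B c0 c0]
    exact hD
  by_contra hcon
  push Not at hcon
  -- on the set of good `u`
  have h1 : ∀ (u : Fin N → L) (z : L),
      bil (B.map χ) (u + z • fun j => χ (c0 j)) (u + z • fun j => χ (c0 j)) = 0 →
      eval₂ χ u α + eval₂ χ u α' * z = 0 := by
    intro u z hz
    have h2 := key χ u z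
    rw [hz, hcon _ hz, mul_zero, zero_mul, zero_add] at h2
    exact h2.symm
  have hdense := hQ1 L N (B.map χ) (hB.map _) hrk hiso (fun j => χ (c0 j)) hD'
  -- `α' = 0`
  have h2 : ∀ (u : Fin N → L) (z : L),
      bil (B.map χ) (u + z • fun j => χ (c0 j)) (u + z • fun j => χ (c0 j)) = 0 →
      eval₂ χ u α' * (bil (B.map χ) u (fun j => χ (c0 j)) ^ 2 -
        bil (B.map χ) (fun j => χ (c0 j)) (fun j => χ (c0 j)) * bil (B.map χ) u u) = 0 := by
    intro u z hz
    set D := bil (B.map χ) (fun j => χ (c0 j)) (fun j => χ (c0 j)) with hDdef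
    set b := bil (B.map χ) u (fun j => χ (c0 j)) with hb
    have h3 := h1 u z hz
    have hz1 := hz
    rw [bil_line (B.map χ) (hB.map _)] at hz1
    rw [← hDdef, ← hb] at hz1
    have h4 : bil (B.map χ) (u + (-(2 * b / D) - z) • fun j => χ (c0 j))
        (u + (-(2 * b / D) - z) • fun j => χ (c0 j)) = 0 := by
      rw [bil_line (B.map χ) (hB.map _), ← hDdef, ← hb]
      rw [← hz1]
      field_simp
      ring
    have h5 := h1 u _ h4
    have h6 : eval₂ χ u α' * (D * z + b) = 0 := by
      have h7 : eval₂ χ u α' * (z - (-(2 * b / D) - z)) = 0 := by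
        linear_combination h3 - h5
      have h8 : D * z + b = D / 2 * (z - (-(2 * b / D) - z)) := by
        field_simp
        ring
      rw [h8]
      linear_combination (D / 2) * h7
    have h9 : b ^ 2 - D * bil (B.map χ) u u = (D * z + b) * (D * z + b) := by
      linear_combination (-D) * hz1
    rw [h9, ← mul_assoc, h6, zero_mul]
  have hα'0 : map χ α' = 0 := by
    by_contra hne
    -- the discriminant polynomial
    let Δ : MvPolynomial (Fin N) L := bil ((B.map χ).map C) X (fun j => C (χ (c0 j))) ^ 2 -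
      C (bil (B.map χ) (fun j => χ (c0 j)) (fun j => χ (c0 j))) *
        bil ((B.map χ).map C) X X
    have hΔ : ∀ u, eval u Δ = bil (B.map χ) u (fun j => χ (c0 j)) ^ 2 -
        bil (B.map χ) (fun j => χ (c0 j)) (fun j => χ (c0 j)) * bil (B.map χ) u u := by
      intro u
      have hB2 : (((B.map χ).map C).map (eval u)) = B.map χ := by
        ext i j
        simp
      have e1 := map_bil' (eval u) ((B.map χ).map C) X (fun j => C (χ (c0 j)))
      have e2 := map_bil' (eval u) ((B.map χ).map C) X X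
      rw [hB2] at e1 e2
      simp only [Δ, map_sub, map_pow, map_mul, eval_C]
      rw [e1, e2]
      simp
    have hΔ0 : Δ ≠ 0 := by
      obtain ⟨u, hu⟩ := hQ1b L N (B.map χ) (hB.map _) hrk (fun j => χ (c0 j)) hD'
      intro h0
      apply hu
      rw [← hΔ u, h0, map_zero]
    obtain ⟨u, z, hG, hz⟩ := hdense (map χ α' * Δ) (mul_ne_zero hne hΔ0)
    apply hG
    rw [map_mul, hΔ, eval_map]
    exact h2 u z hz
  have hα'1 : ∀ u : Fin N → L, eval₂ χ u α' = 0 := fun u => by
    rw [← eval_map, hα'0, map_zero]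
  have hα1 : map χ α ≠ 0 := by
    intro h0
    apply right_ne_zero_of_mul hχ
    rw [← coeff_map, h0, coeff_zero]
  obtain ⟨u, z, hG, hz⟩ := hdense (map χ α) hα1
  apply hG
  have h3 := h1 u z hz
  rw [hα'1, zero_mul, add_zero] at h3
  rw [eval_map]
  exact h3

end Pool.Agent.Helper83.QM
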