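import Pool.Agent.Helper83.QM.Hpt
import Pool.Agent.Helper83.QM.End
import Pool.Agent.Helper83.QM.ConeM
import Pool.Agent.Helper83.BR.ConeM
import Pool.Agent.Helper83.RelL.QL
import Pool.Agent.Helper35.Rel.Final

/-!
# The final theorem over `T × A ^ n`
-/

set_option autoImplicit false

namespace Pool.Agent.Helper83.QM

open MvPolynomial TensorProduct AlgebraicGeometry CategoryTheory
open Pool.Agent.Helper15 Pool.Agent.Helper65.CB Pool.Agent.Helper35.BR Pool.Agent.Helper35.Rel
open Pool.Agent.Helper49.QU Pool.Agent.Helper83.RelQ Pool.Agent.Helper83.BR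
open Pool.Agent.Helper83.Rel Pool.Agent.Helper69.CB Pool.Agent.Helper49.QL

/-- an Azumaya algebra over a domain has positive rank -/
theorem pos_of_azumaya {S A : Type} [CommRing S] [IsDomain S] [Ring A] [Algebra S A]
    [IsAzumaya S A] {m : ℕ}
    (hm : Module.finrank (FractionRing S) (FractionRing S ⊗[S] A) = m ^ 2) : 0 < m := by
  rcases Nat.eq_zero_or_pos m with rfl | h
  · exfalso
    rw [zero_pow two_ne_zero] at hm
    have h1 : Subsingleton (FractionRing S ⊗[S] A) := Module.finrank_zero_iff.1 hm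
    have hinj : Function.Injective (fun x : A => (1 : FractionRing S) ⊗ₜ[S] x) := by
      have h2 := Module.Flat.rTensor_preserves_injective_linearMap (M := A)
        (Algebra.linearMap S (FractionRing S)) (IsFractionRing.injective S (FractionRing S))
      intro x y hxy
      have h3 : (LinearMap.rTensor A (Algebra.linearMap S (FractionRing S))) (1 ⊗ₜ[S] x) =
          (LinearMap.rTensor A (Algebra.linearMap S (FractionRing S))) (1 ⊗ₜ[S] y) := by
        rw [LinearMap.rTensor_tmul, LinearMap.rTensor_tmul, Algebra.linearMap_apply, map_one]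
        exact hxy
      have h4 := h2 h3
      have h5 := congrArg (TensorProduct.lid S A) h4
      rwa [TensorProduct.lid_tmul, TensorProduct.lid_tmul, one_smul, one_smul] at h5
    have h2 : Subsingleton A := ⟨fun x y => hinj (Subsingleton.elim _ _)⟩
    have h3 : (1 : S) = 0 := FaithfulSMul.eq_of_smul_eq_smul (α := A) fun x => Subsingleton.elim _ _
    exact one_ne_zero h3
  · exact h

/-- **(II)**, abstract base -/
theorem final_abs (K : Type) [Field K] [NumberField K] {M n r s : ℕ}
    {R : Type} [CommRing R] [IsDomain R] [Algebra K R]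
    (τ : Fin M → R) (hgen : Algebra.adjoin K (Set.range τ) = ⊤)
    (hcone : ∀ (M0 : Type) [Field M0] [Algebra K M0] (φ : R →ₐ[K] M0),
      ∃ ψ : R →ₐ[K] Polynomial M0, ∀ l, ψ (τ l) = Polynomial.X * Polynomial.C (φ (τ l)))
    (hdense : ∀ f : R, f ≠ 0 → ∃ φ : R →ₐ[K] K, φ f ≠ 0) (hτ : ∃ l, τ l ≠ 0)
    (a : MvPolynomial (Fin n) R) (N : Fin r → ℕ)
    (q : ∀ i : Fin r, Matrix (Fin (N i)) (Fin (N i)) (MvPolynomial (Fin n) R))
    (hq : ∀ i, (q i).IsSymm)
    (Sa : Type) [CommRing Sa] [Algebra K Sa] [Algebra (MvPolynomial (Fin n) R) Sa]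
    [IsScalarTower K (MvPolynomial (Fin n) R) Sa] [IsLocalization.Away a Sa]
    (A : Fin s → Type) [∀ j, Ring (A j)] [∀ j, Algebra Sa (A j)]
    [∀ j, IsAzumaya Sa (A j)] (m : Fin s → ℕ)
    (hm : ∀ j, Module.finrank (FractionRing Sa) (FractionRing Sa ⊗[Sa] A j) = m j ^ 2)
    (h1 : ∀ ψ : R →ₐ[K] AlgebraicClosure K, (∃ k, ψ (τ k) ≠ 0) →
      MvPolynomial.map (ψ : R →+* AlgebraicClosure K) a ≠ 0 ∧
      ∀ i, ∃ f g : Fin 3 → Fin (N i), (((q i).map (MvPolynomial.map
        (ψ : R →+* AlgebraicClosure K))).submatrix f g).det ≠ 0)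
    (h2 : ∀ P : MvPolynomial (Fin n) (FractionRing R), Irreducible P →
      (P ∣ MvPolynomial.map (algebraMap _ (FractionRing R)) a ∨
      ∃ i, Minors ((q i).map (MvPolynomial.map (algebraMap _ (FractionRing R)))) P) →
      TriDeg 3 P) :
    ∃ d : MvPolynomial (Fin n) R, d ≠ 0 ∧
      ∀ (Y : Scheme.{0}) (t : Y ⟶ Spec (CommRingCat.of K)),
      DominatedOver K Y (Spec (CommRingCat.of (Localization.Away
        (algebraMap Sa (QH (fun i => (q i).map (algebraMap _ Sa)) (HomRing Sa A m))
          (algebraMap _ Sa d))))) t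
        (Spec.map (CommRingCat.ofHom (algebraMap K (Localization.Away
          (algebraMap Sa (QH (fun i => (q i).map (algebraMap _ Sa)) (HomRing Sa A m))
          (algebraMap _ Sa d)))))) →
      PotentiallyDense K Y t := by
  classical
  have hchR : CharZero R := charZero_of_injective_algebraMap (algebraMap K R).injective
  -- a point outside the vertex
  obtain ⟨k0, hk0⟩ := hτ
  obtain ⟨φ0, hφ0⟩ := hdense (τ k0) hk0
  have hpt0 := h1 ((Algebra.ofId K (AlgebraicClosure K)).comp φ0)
    ⟨k0, fun h0 => hφ0 ((map_eq_zero_iff _ (algebraMap K (AlgebraicClosure K)).injective).1 h0)⟩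
  have ha0 : a ≠ 0 := by
    rintro rfl
    exact hpt0.1 (map_zero _)
  have hq0 : ∀ i, ∃ f g : Fin 3 → Fin (N i), ((q i).submatrix f g).det ≠ 0 := by
    intro i
    obtain ⟨f, g, hfg⟩ := hpt0.2 i
    refine ⟨f, g, fun h0 => hfg ?_⟩
    have h3 := RingHom.map_det (MvPolynomial.map (σ := Fin n)
      (((Algebra.ofId K (AlgebraicClosure K)).comp φ0 : R →ₐ[K] AlgebraicClosure K) :
        R →+* AlgebraicClosure K)) ((q i).submatrix f g)
    rw [h0, map_zero] at h3
    exact h3.symm
  have hle : Submonoid.powers a ≤ nonZeroDivisors (MvPolynomial (Fin n) R) :=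
    powers_le_nonZeroDivisors_of_noZeroDivisors ha0
  have hdom : IsDomain Sa := IsLocalization.isDomain_of_le_nonZeroDivisors _ hle
  have hinjS : Function.Injective (algebraMap (MvPolynomial (Fin n) R) Sa) :=
    IsLocalization.injective Sa hle
  -- the number field
  have hm0 : ∀ j, 0 < m j := fun j => pos_of_azumaya (hm j)
  let e : ℕ := 4 * ∏ j, m j
  have he : e ≠ 0 := mul_ne_zero (by norm_num) (Finset.prod_ne_zero_iff.2 fun j _ => (hm0 j).ne')
  have : NeZero e := ⟨he⟩
  let M0 : Type := CyclotomicField e K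
  have hM0 : NumberField M0 := IsCyclotomicExtension.numberField {e} K M0
  have hroot : ∀ k : ℕ, k ∣ e → ∃ ζ : M0, IsPrimitiveRoot ζ k := by
    intro k hk
    have h1 := IsCyclotomicExtension.zeta_spec e K M0
    obtain ⟨c, hc⟩ := hk
    exact ⟨_, h1.pow (Nat.pos_of_ne_zero he) (by rw [mul_comm]; exact hc)⟩
  -- the sieve property
  have hgeo : ∀ i, ∀ ψ : R →ₐ[K] AlgebraicClosure K,
      (∀ f g : Fin 3 → Fin (N i),
        (((q i).map (MvPolynomial.map (ψ : R →+* AlgebraicClosure K))).submatrix f g).det = 0) →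
      ∀ l, ψ (τ l) = 0 := by
    intro i ψ hψ l
    by_contra hl
    obtain ⟨f, g, hfg⟩ := (h1 ψ ⟨l, hl⟩).2 i
    exact hfg (hψ f g)
  have hga : GeomNoZero K τ a := by
    intro ψ hψ l
    by_contra hl
    exact (h1 ψ ⟨l, hl⟩).1 hψ
  have hinjL : Function.Injective (MvPolynomial.map (σ := Fin n)
      (algebraMap R (FractionRing R))) :=
    MvPolynomial.map_injective _ (IsFractionRing.injective R (FractionRing R))
  have hSP : SPU K M0 (sm a q) := by
    refine spu_coneM (FractionRing R) τ hgen (hcone M0)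
      (fun f hf => ?_) ⟨k0, hk0⟩ (sm a q) ?_ ?_
    · obtain ⟨φ, hφ⟩ := hdense f hf
      exact ⟨(Algebra.ofId K M0).comp φ, fun h0 => hφ
        ((map_eq_zero_iff _ (algebraMap K M0).injective).1 h0)⟩
    · rintro (u | i | i)
      · exact Pool.Agent.Helper60.RelQ.noZero_of_geom τ hgen _
          (Pool.Agent.Helper83.RelL.geomNoZero_incR τ a hga)
      · exact Pool.Agent.Helper60.RelQ.noZero_of_geom τ hgen _
          (Pool.Agent.Helper17.RelQ.geomNoZero_sym τ q hq i (hgeo i)).1
      · exact Pool.Agent.Helper60.RelQ.noZero_of_geom τ hgen _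
          (Pool.Agent.Helper17.RelQ.geomNoZero_sym τ q hq i (hgeo i)).2
    · have hfac : ∀ i, ∀ P : MvPolynomial (Fin (vn N + n)) (FractionRing R), Irreducible P →
          P ∣ map (algebraMap R (FractionRing R)) (aQR N q i * bQR N q i) → TriDeg 3 P := by
        intro i P hP hdv
        have h3 := Pool.Agent.Helper49.RelQ.map_aQR_bQR (algebraMap R (FractionRing R)) q i
        have h4 := Pool.Agent.Helper49.RelQ.aQR_eq
          (fun i => (q i).map (MvPolynomial.map (algebraMap R (FractionRing R)))) i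
        rw [map_mul, h3.1, h3.2, h4.1, h4.2] at hdv
        refine Pool.Agent.Helper8.RelQ.factor_tri 3 (by norm_num) _ (fun i => (hq i).map _) i ?_
          (fun P hP hM => h2 P hP (Or.inr ⟨i, hM⟩)) P hP hdv
        obtain ⟨f, g, hfg⟩ := hq0 i
        refine ⟨f, g, fun h0 => hfg ?_⟩
        have h5 := RingHom.map_det (MvPolynomial.map (σ := Fin n) (algebraMap R (FractionRing R)))
          ((q i).submatrix f g)
        have h6 : MvPolynomial.map (algebraMap R (FractionRing R))
            ((q i).submatrix f g).det = 0 := by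
          rw [h5]
          exact h0
        exact hinjL (by rw [h6, map_zero])
      rintro (u | i | i) P hP hdv
      · change P ∣ map (algebraMap R (FractionRing R)) (incR n N R a) at hdv
        rw [Pool.Agent.Helper83.RelL.map_incR] at hdv
        have h5 := factor_norm (k := FractionRing R) (N := N) 3 2 False
          (map (algebraMap R (FractionRing R)) a) 1
          (fun h0 => ha0 (hinjL (h0.trans (map_zero _).symm))) one_ne_zero
          (fun P hP hd => Or.inl (h2 P hP (Or.inl (by rwa [mul_one] at hd)))) P hP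
          (Dvd.dvd.mul_right hdv _)
        exact h5.resolve_right (fun h => h.1)
      · exact hfac i P hP (by rw [map_mul]; exact Dvd.dvd.mul_right hdv _)
      · exact hfac i P hP (by rw [map_mul]; exact Dvd.dvd.mul_left hdv _)
  obtain ⟨L, iL, nL, aL, aKL, htL, hL⟩ := hpt_mix (K := K) a q hq M0 hSP Sa A m
    hm0 hm
    (fun j l _ hlj => hroot l (hlj.trans ((Finset.dvd_prod_of_mem m (Finset.mem_univ j)).trans
      (Dvd.intro_left 4 rfl))))
    (hroot 4 (Dvd.intro _ rfl))
  have hfin : FiniteDimensional K L := by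
    have : IsScalarTower ℚ K L := inferInstance
    exact Module.Finite.right ℚ K L
  have hcs := fun j => Pool.Agent.Helper28.BR.spec_cs (A := A j) (m j) (hm0 j) (hm j)
    (FractionRing Sa)
  obtain ⟨δ, hδ, hp⟩ := qend_points (K := K)
    (fun i => (q i).map (algebraMap (MvPolynomial (Fin n) R) Sa))
    (fun i => (hq i).map _)
    (fun i => by
      obtain ⟨f, g, hfg⟩ := hq0 i
      refine ⟨f, g, fun h0 => hfg (hinjS ?_)⟩
      rw [map_zero, RingHom.map_det]
      exact h0)
    A m (fun j => (hcs j).2.1) (fun j => (hcs j).1) hm L hL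
  -- from `Sa` to `S`
  obtain ⟨k, d, hdδ⟩ := IsLocalization.Away.surj a δ
  have hu : IsUnit (algebraMap (MvPolynomial (Fin n) R) Sa a ^ k) :=
    (IsLocalization.Away.algebraMap_isUnit a).pow k
  refine ⟨d, ?_, fun Y t hY => pd_of_points K _ L (fun g hg => ?_) Y t hY⟩
  · rintro rfl
    rw [map_zero] at hdδ
    exact hδ ((hu.mul_left_eq_zero).1 hdδ)
  · rw [← hdδ, map_mul, mul_comm (algebraMap _ _ δ), ← mul_assoc] at hg ⊢
    exact hp _ hg

/-- **(II) over `T × A ^ n`** -/
theorem final_T (K : Type) [Field K] [NumberField K] (M n r s : ℕ)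
    (I : Ideal (MvPolynomial (Fin M) K)) [I.IsPrime]
    (hI : ∀ f ∈ I, ∀ d : ℕ, homogeneousComponent d f ∈ I) (hI0 : ∃ k, X k ∉ I)
    (hd : DenseZeros I)
    (a : MvPolynomial (Fin n) (MvPolynomial (Fin M) K ⧸ I)) (N : Fin r → ℕ)
    (q : ∀ i : Fin r, Matrix (Fin (N i)) (Fin (N i))
      (MvPolynomial (Fin n) (MvPolynomial (Fin M) K ⧸ I)))
    (hq : ∀ i, (q i).IsSymm)
    (A : Fin s → Type) [∀ j, Ring (A j)] [∀ j, Algebra (Localization.Away a) (A j)]
    [∀ j, IsAzumaya (Localization.Away a) (A j)] (m : Fin s → ℕ)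
    (hm : ∀ j, Module.finrank (FractionRing (Localization.Away a))
      (FractionRing (Localization.Away a) ⊗[Localization.Away a] A j) = m j ^ 2)
    (h1 : ∀ ψ : (MvPolynomial (Fin M) K ⧸ I) →ₐ[K] AlgebraicClosure K,
      (∃ k, ψ (Ideal.Quotient.mk I (X k)) ≠ 0) →
      MvPolynomial.map (ψ : (MvPolynomial (Fin M) K ⧸ I) →+* AlgebraicClosure K) a ≠ 0 ∧
      ∀ i, ∃ f g : Fin 3 → Fin (N i), (((q i).map (MvPolynomial.map
        (ψ : (MvPolynomial (Fin M) K ⧸ I) →+* AlgebraicClosure K))).submatrix f g).det ≠ 0)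
    (h2 : ∀ P : MvPolynomial (Fin n) (FractionRing (MvPolynomial (Fin M) K ⧸ I)), Irreducible P →
      (P ∣ MvPolynomial.map (algebraMap _ (FractionRing (MvPolynomial (Fin M) K ⧸ I))) a ∨
      ∃ i, Minors ((q i).map (MvPolynomial.map
        (algebraMap _ (FractionRing (MvPolynomial (Fin M) K ⧸ I))))) P) →
      ∀ k : Fin n, (∀ k' < k, P.degreeOf k' = 0) → P.degreeOf k ≤ 3) :
    ∃ d : MvPolynomial (Fin n) (MvPolynomial (Fin M) K ⧸ I), d ≠ 0 ∧
      ∀ (Y : Scheme.{0}) (t : Y ⟶ Spec (CommRingCat.of K)),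
      DominatedOver K Y (Spec (CommRingCat.of (Localization.Away
        (algebraMap (Localization.Away a) (QH
          (fun i => (q i).map (algebraMap _ (Localization.Away a)))
          (HomRing (Localization.Away a) A m))
          (algebraMap _ (Localization.Away a) d))))) t
        (Spec.map (CommRingCat.ofHom (algebraMap K (Localization.Away
          (algebraMap (Localization.Away a) (QH
          (fun i => (q i).map (algebraMap _ (Localization.Away a)))
          (HomRing (Localization.Away a) A m))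
          (algebraMap _ (Localization.Away a) d)))))) →
      PotentiallyDense K Y t := by
  obtain ⟨k0, hk0⟩ := hI0
  exact final_abs K (fun k => Ideal.Quotient.mk I (X k)) (gen_quot I)
    (fun M0 _ _ φ => coneM_of_homogeneous I hI φ) (fun f hf => dense_cone I hI hd f hf)
    ⟨k0, fun h0 => hk0 (Ideal.Quotient.eq_zero_iff_mem.1 h0)⟩ a N q hq (Localization.Away a) A m hm
    h1 h2

end Pool.Agent.Helper83.QM
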