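import Pool.Agent.Helper83.QM.Defs
import Pool.Agent.Helper35.BR.Defs
import Pool.Agent.Helper65.CB.Dom

/-!
# QM: frames (text only, do not import)
-/

set_option autoImplicit false

namespace Pool.Agent.Helper83.QM.Fr

open Matrix Pool.Agent.Helper49.QU Pool.Agent.Helper83.QM MvPolynomial

/-- **Q1.** the vectors `u` such that the line `u + L c0` has an `L`-point on the quadric are
Zariski dense.  Proof: suppose `G (u' - z c0) = 0` for all isotropic `u'` and all `z` in `L`.  The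
vectors `q(w) e - 2 b(e,w) w` are isotropic, so `G (q(w) e - 2 b(e,w) w - z c0)`, a polynomial in
`(w, z)` over the infinite field `L`, is zero, hence vanishes over the algebraic closure.  Over the
closure: `z` a root of `q(u + z c0) = 0`, `u' = u + z c0`; if `b(e,u')` is nonzero, then
`u' = q(w) e - 2 b(e,w) w` for `w = s u'`, `s ^ 2 = - 1 / (2 b(e,u'))`.  If `b(e,u') = 0`, then
`E(u) := q(b(e,c0) u - b(e,u) c0) = 0`.  So `G * E = 0`; `E ≠ 0` (if `b(e,c0) = 0`, `E = b(e,u)^2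
q(c0)`; otherwise `E = 0` would make `q` zero on the hyperplane `b(e,·) = 0` and
`B j k = l k * m j + l j * m k` has rank at most two). -/
theorem dense_iso {L : Type} [Field L] [CharZero L] {N : ℕ} (B : Matrix (Fin N) (Fin N) L)
    (hB : B.IsSymm) (hr : Rk3 B) (hi : Iso B) (c0 : Fin N → L) (hc : bil B c0 c0 ≠ 0)
    (G : MvPolynomial (Fin N) L) (hG : G ≠ 0) :
    ∃ (u : Fin N → L) (z : L), eval u G ≠ 0 ∧ bil B (u + z • c0) (u + z • c0) = 0 := by
  sorry

/-- **Q1b.** the discriminant on the plane spanned by `c0` and `u` is not identically zero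
(otherwise `q(c0) B j k = l j * l k`) -/
theorem disc_ne {L : Type} [Field L] [CharZero L] {N : ℕ} (B : Matrix (Fin N) (Fin N) L)
    (hB : B.IsSymm) (hr : Rk3 B) (c0 : Fin N → L) (hc : bil B c0 c0 ≠ 0) :
    ∃ u : Fin N → L, bil B u c0 ^ 2 - bil B c0 c0 * bil B u u ≠ 0 := by
  sorry

/-- **Q2.** (helper83) -/
theorem elim {H : Type} [CommRing H] {N : ℕ} (B : Matrix (Fin N) (Fin N) H) (hB : B.IsSymm)
    (c0 : Fin N → H) (c : MvPolynomial (Fin N) H) {Ω : Type} [Field Ω] (h : H →+* Ω)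
    (hc : h (bil B c0 c0) ≠ 0) (u0 : Fin N → Ω) (hq : bil (B.map h) u0 u0 = 0)
    (hcu : eval₂ h u0 c ≠ 0) :
    ∃ g : H, h g ≠ 0 ∧ ∀ (L : Type) [Field L] [CharZero L] (χ : H →+* L), χ g ≠ 0 →
      Rk3 (B.map χ) → Iso (B.map χ) →
      ∃ u : Fin N → L, bil (B.map χ) u u = 0 ∧ eval₂ χ u c ≠ 0 := by
  sorry

/-- **Q3.** several quadrics, by induction on `r` with Q2 over the ring
`MvPolynomial (Σ i : Fin r, Fin (N i.succ)) H`; the ring homomorphism
`MvPolynomial (Σ i : Fin (r + 1), Fin (N i)) H →+* MvPolynomial (Fin (N 0)) (MvPolynomial _ H)`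
(`eval₂Hom (C.comp C)` of `X` resp. `C X`) is enough, no isomorphism. -/
theorem elims {H : Type} [CommRing H] {r : ℕ} {N : Fin r → ℕ}
    (B : ∀ i : Fin r, Matrix (Fin (N i)) (Fin (N i)) H) (hB : ∀ i, (B i).IsSymm)
    (c0 : ∀ i : Fin r, Fin (N i) → H) (c : MvPolynomial (Σ i : Fin r, Fin (N i)) H) {Ω : Type}
    [Field Ω] (h : H →+* Ω) (hc : ∀ i, h (bil (B i) (c0 i) (c0 i)) ≠ 0)
    (u0 : (Σ i : Fin r, Fin (N i)) → Ω)
    (hq : ∀ i, bil ((B i).map h) (fun j => u0 ⟨i, j⟩) (fun j => u0 ⟨i, j⟩) = 0)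
    (hcu : eval₂ h u0 c ≠ 0) :
    ∃ g : H, h g ≠ 0 ∧ ∀ (L : Type) [Field L] [CharZero L] (χ : H →+* L), χ g ≠ 0 →
      (∀ i, Rk3 ((B i).map χ)) → (∀ i, Iso ((B i).map χ)) →
      ∃ u : (Σ i : Fin r, Fin (N i)) → L,
        (∀ i, bil ((B i).map χ) (fun j => u ⟨i, j⟩) (fun j => u ⟨i, j⟩) = 0) ∧
        eval₂ χ u c ≠ 0 := by
  sorry

/-- **Q4.** a point of the conic gives an isotropic vector outside the radical
(`Helper92.QU.bil_upt`; `b(upt, g2) = D1 * (value of q at g2)` where `g2` is the vector in the last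
bracket of `upt`, orthogonal to `v 0` and `v 1`; its value is `D2 * D3`) -/
theorem iso_of_conic {L : Type} [Field L] {N : ℕ} (B : Matrix (Fin N) (Fin N) L) (hB : B.IsSymm)
    (v : Fin 3 → Fin N → L) (h1 : D1 B v ≠ 0) (h2 : D2 B v ≠ 0) (h3 : D3 B v ≠ 0) (x y : L)
    (hxy : x ^ 2 = qa B v * y ^ 2 + qb B v) : Iso B ∧ Rk3 B := by
  sorry

/-- **Q5.** a representation of the quaternion algebra over a field gives a point of the conic
(`I = ρ i`, `J = ρ j`, a vector `w` with `det (w, I w) ≠ 0`: `x = - det (I w, J w)`,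
`y = det (w, J w)`, divided by `z = det (w, I w)`) -/
theorem conic_of_rep {L : Type} [Field L] [CharZero L] {R : Type} [CommRing R] (φ : R →+* L)
    (a b : R) (ha : φ a ≠ 0) (hb : φ b ≠ 0)
    (ρ : QuaternionAlgebra R a 0 b →+* Matrix (Fin 2) (Fin 2) L)
    (hρ : Pool.Agent.Helper35.BR.Over φ ρ) :
    ∃ x y : L, x ^ 2 = φ a * y ^ 2 + φ b := by
  sorry

/-- **Q6.** the converse: points of the conic give representations
(`i ↦ !![0, a; 1, 0]`, `j ↦ !![x, -a y; y, -x]`) -/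
theorem rep_of_conic {S : Type} [CommRing S] {R : Type} [CommRing R] (φ : R →+* S)
    (a b : R) (x y : S) (hxy : x ^ 2 = φ a * y ^ 2 + φ b) :
    ∃ ρ : QuaternionAlgebra R a 0 b →+* Matrix (Fin 2) (Fin 2) S,
      Pool.Agent.Helper35.BR.Over φ ρ := by
  sorry

/-- **Q7.** quaternion algebras are generically central simple of dimension four
(`FractionRing R ⊗ ℍ[R,a,b] ≃ ℍ[F,a,b]`, Azumaya by Q8, central and simple over a field) -/
theorem quat_generic {R : Type} [CommRing R] [IsDomain R] [CharZero R] (a b : R) (ha : a ≠ 0)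
    (hb : b ≠ 0) :
    Algebra.IsCentral (FractionRing R) (TensorProduct R (FractionRing R) (QuaternionAlgebra R a 0 b)) ∧
    IsSimpleRing (TensorProduct R (FractionRing R) (QuaternionAlgebra R a 0 b)) ∧
    Module.finrank (FractionRing R)
      (TensorProduct R (FractionRing R) (QuaternionAlgebra R a 0 b)) = 2 ^ 2 := by
  sorry

/-- **Q8.** (helper83) -/
theorem quat_azumaya {R : Type} [CommRing R] (a b : R) (ha : IsUnit a) (hb : IsUnit b)
    (h2 : IsUnit (2 : R)) : IsAzumaya R (QuaternionAlgebra R a 0 b) := by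
  sorry

end Pool.Agent.Helper83.QM.Fr
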