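import Pool.Agent.Helper83.QM.Conic
import Pool.Agent.Helper47.BR.EA2
import Pool.Agent.Helper8.RelQ.Factor

/-!
# QM: points with isotropic quadrics and split Azumaya algebras over one extension
-/

set_option autoImplicit false

namespace Pool.Agent.Helper83.QM

open NumberField Pool.Agent.Helper4.CB Matrix MvPolynomial TensorProduct
open Pool.Agent.Helper49.QU Pool.Agent.Helper83.RelQ Pool.Agent.Helper83.BR
open Pool.Agent.Helper69.CB (vl TriDeg)
open Pool.Agent.Helper65.CL (Bad)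
open Pool.Agent.Helper28.BR (Az)

/-- the representations of one algebra at the points -/
theorem rep_at {Sa A : Type} [CommRing Sa] [IsDomain Sa] [Ring A] [Algebra Sa A] [IsAzumaya Sa A]
    (m : ℕ) (hm0 : 0 < m)
    (hm : Module.finrank (FractionRing Sa) (FractionRing Sa ⊗[Sa] A) = m ^ 2) :
    ∃ G : Finset Sa, ∀ (M : Type) [Field M] [NumberField M] (J : ℕ),
      (∀ l : ℕ, l.Prime → l ∣ m → ∃ ζ : M, IsPrimitiveRoot ζ l) →
      (∃ i : M, IsPrimitiveRoot i 4) →
      ∃ (L' : Type) (_ : Field L') (_ : NumberField L') (_ : Algebra M L'),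
        ∀ φ : Sa →+* M, (∀ p : Pl M, Bad m.primeFactors J p → ∀ g ∈ G, vl p (φ g) ≤ 1) →
          ∃ ρ : A →+* Matrix (Fin m) (Fin m) L',
            Pool.Agent.Helper35.BR.Over ((algebraMap M L').comp φ) ρ := by
  classical
  have haz : Az Sa A := Pool.Agent.Helper28.BR.az_of_azumaya
  obtain ⟨G, hG⟩ := Pool.Agent.Helper47.BR.rep_good Pool.Agent.Helper47.BR.goodNF haz m hm0
  refine ⟨G, fun M _ _ J hζ h4 => ?_⟩
  obtain ⟨L', iL', nL', aL', hL'⟩ := Pool.Agent.Helper47.BR.alg_split M m J hm0 hζ (fun _ => h4)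
  refine ⟨L', iL', nL', aL', fun φ hφ => ?_⟩
  let aRM : Algebra Sa M := φ.toAlgebra
  have h1 : Az M (M ⊗[Sa] A) := Pool.Agent.Helper62.BR.az_baseChange haz
  have h2 : Module.finrank M (M ⊗[Sa] A) = m ^ 2 := by
    rw [Pool.Agent.Helper47.BR.finrank_point M (FractionRing Sa), hm]
  have hnt : Nontrivial (M ⊗[Sa] A) := by
    apply Module.nontrivial_of_finrank_pos (R := M)
    rw [h2]
    exact pow_pos hm0 2
  obtain ⟨hs, hc⟩ := Pool.Agent.Helper62.BR.simple_of_az h1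
  obtain ⟨ρ⟩ := hL' (M ⊗[Sa] A) h2 (fun p hp => hG M h2 p fun g hg => hφ p hp g hg)
  refine ⟨(ρ : (M ⊗[Sa] A) →+* _).comp
    (Algebra.TensorProduct.includeRight : A →ₐ[Sa] M ⊗[Sa] A), ?_⟩
  intro c
  have h5 : (Algebra.TensorProduct.includeRight : A →ₐ[Sa] M ⊗[Sa] A) (algebraMap Sa A c) =
      algebraMap M (M ⊗[Sa] A) (φ c) := by
    rw [AlgHom.commutes]
    rfl
  change ρ ((Algebra.TensorProduct.includeRight : A →ₐ[Sa] M ⊗[Sa] A)
    (algebraMap Sa A c)) = _
  rw [h5, AlgHom.commutes]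
  rfl

theorem Over.mapMatrix {Sa A : Type} [CommRing Sa] [Ring A] [Algebra Sa A] {m : ℕ} {E E' : Type}
    [CommRing E] [CommRing E'] {φ : Sa →+* E} {ρ : A →+* Matrix (Fin m) (Fin m) E}
    (h : Pool.Agent.Helper35.BR.Over φ ρ) (f : E →+* E') :
    Pool.Agent.Helper35.BR.Over (f.comp φ) (f.mapMatrix.comp ρ) :=
  h.comp f

/-- **points** -/
theorem hpt_mix {K : Type} [Field K] {R : Type} [CommRing R] [IsDomain R] [Algebra K R]
    {n r s : ℕ} {N : Fin r → ℕ} (a : MvPolynomial (Fin n) R)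
    (q : ∀ i : Fin r, Matrix (Fin (N i)) (Fin (N i)) (MvPolynomial (Fin n) R))
    (hq : ∀ i, (q i).IsSymm) (M : Type) [Field M] [NumberField M] [Algebra K M]
    (hSP : SPU K M (sm a q))
    (Sa : Type) [CommRing Sa] [IsDomain Sa] [Algebra K Sa] [Algebra (MvPolynomial (Fin n) R) Sa]
    [IsScalarTower K (MvPolynomial (Fin n) R) Sa] [IsLocalization.Away a Sa]
    (A : Fin s → Type) [∀ j, Ring (A j)] [∀ j, Algebra Sa (A j)] [∀ j, IsAzumaya Sa (A j)]
    (m : Fin s → ℕ) (hm0 : ∀ j, 0 < m j)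
    (hm : ∀ j, Module.finrank (FractionRing Sa) (FractionRing Sa ⊗[Sa] A j) = m j ^ 2)
    (hζ : ∀ j, ∀ l : ℕ, l.Prime → l ∣ m j → ∃ ζ : M, IsPrimitiveRoot ζ l)
    (h4 : ∃ i : M, IsPrimitiveRoot i 4) :
    ∃ (L : Type) (_ : Field L) (_ : NumberField L) (_ : Algebra M L) (_ : Algebra K L)
      (_ : IsScalarTower K M L), ∀ f : Sa, f ≠ 0 → ∃ φ : Sa →ₐ[K] L,
        (∀ i, Iso (((q i).map (algebraMap (MvPolynomial (Fin n) R) Sa)).map φ)) ∧ φ f ≠ 0 ∧
        ∀ j, ∃ ρ : A j →+* Matrix (Fin (m j)) (Fin (m j)) L,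
          Pool.Agent.Helper35.BR.Over (φ : Sa →+* L) ρ := by
  classical
  choose G hG using fun j => rep_at (A := A j) (m j) (hm0 j) (hm j)
  choose k y hy using fun g : Sa => IsLocalization.Away.surj a g
  let Λ : Finset ℕ := insert 2 (Finset.univ.biUnion fun j => (m j).primeFactors)
  have hΛ : ∀ l ∈ Λ, l.Prime := by
    intro l hl
    rcases Finset.mem_insert.1 hl with rfl | hl
    · exact Nat.prime_two
    · obtain ⟨j, -, hj⟩ := Finset.mem_biUnion.1 hl
      exact Nat.prime_of_mem_primeFactors hj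
  let inc := incR (N := N) n R
  obtain ⟨J0, hJ0⟩ := hSP Λ hΛ ((Finset.univ.biUnion G).image fun g => inc (y g))
  let J : ℕ := max J0 2
  choose L' iL' nL' aL' hL' using fun j => hG j M J (hζ j) h4
  obtain ⟨L1, iL1, nL1, aL1, hL1⟩ := Pool.Agent.Helper47.BR.exists_common M L'
  obtain ⟨L2, iL2, nL2, aL2, hL2⟩ := exists_conic_field M J (le_max_right _ _)
  obtain ⟨L, iL, nL, aL, ⟨ι1⟩, ⟨ι2⟩⟩ := exists_common_two M L1 L2
  let aK : Algebra K L := ((algebraMap M L).comp (algebraMap K M)).toAlgebra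
  have htow : IsScalarTower K M L := IsScalarTower.of_algebraMap_eq fun _ => rfl
  refine ⟨L, iL, nL, aL, aK, htow, fun f hf => ?_⟩
  have hu : IsUnit (algebraMap (MvPolynomial (Fin n) R) Sa a) :=
    IsLocalization.Away.algebraMap_isUnit _
  have hinc : Function.Injective inc :=
    MvPolynomial.rename_injective _ Pool.Agent.Helper8.QU.tix_injective
  have hy0 : inc (y f) ≠ 0 := by
    rw [Ne, map_eq_zero_iff _ hinc]
    intro h0
    have h1 := hy f
    rw [h0, map_zero] at h1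
    exact hf ((hu.pow _).mul_left_eq_zero.1 h1)
  obtain ⟨φ2, h1, h2, h3⟩ := hJ0 J (le_max_left _ _) (inc (y f)) hy0
  -- the point of `S` and of `Sa`
  let φS : MvPolynomial (Fin n) R →ₐ[K] M := φ2.comp (inc.restrictScalars K)
  have hφSa : φS a ≠ 0 := (h2 (Sum.inl ())).1
  let φa : Sa →ₐ[K] M := IsLocalization.liftAlgHom (M := Submonoid.powers a) (f := φS)
    (by
      rintro ⟨_, k, rfl⟩
      rw [map_pow]
      exact (isUnit_iff_ne_zero.2 hφSa).pow k)
  have hφa : ∀ z, φa (algebraMap _ Sa z) = φS z := fun z => by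
    simp only [φa, IsLocalization.coe_liftAlgHom]
    exact IsLocalization.lift_eq _ z
  have hφa2 : ∀ g : Sa, φa g * φS a ^ k g = φS (y g) := fun g => by
    have h4 := congrArg φa (hy g)
    rwa [map_mul, map_pow, hφa, hφa] at h4
  have hint : ∀ j, ∀ p : Pl M, Bad (m j).primeFactors J p → ∀ g ∈ G j, vl p (φa g) ≤ 1 := by
    intro j p hp g hg
    have hp' : Bad Λ J p := by
      obtain ⟨l, hl, hl'⟩ := hp
      exact ⟨l, Finset.mem_insert_of_mem (Finset.mem_biUnion.2 ⟨j, Finset.mem_univ j, hl⟩), hl'⟩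
    have h5 : vl p (φS a) = 1 := (h2 (Sum.inl ())).2 p hp'
    have h4 := congrArg (vl p) (hφa2 g)
    rw [map_mul, map_pow, h5, one_pow, mul_one] at h4
    rw [h4]
    exact h3 p hp' _ (Finset.mem_image_of_mem _ (Finset.mem_biUnion.2 ⟨j, Finset.mem_univ j, hg⟩))
  refine ⟨(IsScalarTower.toAlgHom K M L).comp φa, fun i => ?_, ?_, fun j => ?_⟩
  · -- the quadrics
    have ha := h2 (Sum.inr (Sum.inl i))
    have hb := h2 (Sum.inr (Sum.inr i))
    obtain ⟨x, y, hxy⟩ := hL2 _ _ ha.1 hb.1 (fun p hp => by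
      have hp' : Bad Λ J p := ⟨2, Finset.mem_insert_self _ _, hp⟩
      exact ⟨ha.2 p hp', hb.2 p hp'⟩)
    have hx2 : ι2 x ^ 2 = algebraMap M L (φ2 (aQR N q i)) * ι2 y ^ 2 +
        algebraMap M L (φ2 (bQR N q i)) := by
      have h4 := congrArg ι2 hxy
      rw [map_pow, map_add, map_mul, map_pow, AlgHom.commutes, AlgHom.commutes] at h4
      exact h4
    have h5 := iso_of_point (L := L) (E := L) q hq ((algebraMap M L).comp (φ2 : _ →+* M)) i
      (fun h0 => ha.1 ((map_eq_zero_iff _ (algebraMap M L).injective).1 h0))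
      (fun h0 => hb.1 ((map_eq_zero_iff _ (algebraMap M L).injective).1 h0)) (ι2 x) (ι2 y) hx2
    have h6 : ((q i).map (algebraMap (MvPolynomial (Fin n) R) Sa)).map
        ((IsScalarTower.toAlgHom K M L).comp φa) =
        (q i).map fun z => ((algebraMap M L).comp (φ2 : _ →+* M)) (incR n N R z) := by
      ext j l
      rw [Matrix.map_apply, Matrix.map_apply, Matrix.map_apply]
      show algebraMap M L (φa (algebraMap _ Sa (q i j l))) = _
      rw [hφa]
      rfl
    rw [h6]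
    exact h5
  · have h5 : φa f ≠ 0 := by
      intro h0
      have h4 := hφa2 f
      rw [h0, zero_mul] at h4
      exact h1 h4.symm
    exact fun h0 => h5 ((map_eq_zero_iff _ (algebraMap M L).injective).1 h0)
  · obtain ⟨ρ, hρ⟩ := hL' j (φa : Sa →+* M) (hint j)
    obtain ⟨ι⟩ := hL1 j
    refine ⟨(((ι1.comp ι : L' j →ₐ[M] L) : L' j →+* L).mapMatrix).comp ρ, ?_⟩
    have h5 := hρ.comp ((ι1.comp ι : L' j →ₐ[M] L) : L' j →+* L)
    intro c
    have h6 := h5 c
    rw [h6]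
    congr 1
    exact (ι1.comp ι).commutes (φa c)

end Pool.Agent.Helper83.QM
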