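import Pool.Agent.Helper83.QM.Elim
import Pool.Agent.Helper98.QM.Dense
import Pool.Agent.Helper45.QM.Elims
import Pool.Agent.Helper35.BR.End

/-!
# QM: the end theorem for quadric bundles over the ring representing homomorphisms
-/

set_option autoImplicit false

namespace Pool.Agent.Helper83.QM

open Matrix MvPolynomial TensorProduct AlgebraicGeometry CategoryTheory
open Pool.Agent.Helper49.QU Pool.Agent.Helper15 Pool.Agent.Helper65.CB Pool.Agent.Helper35.BR

theorem denseIso : DenseIso := fun _ _ _ _ B hB hr hi c0 hc G hG =>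
  Pool.Agent.Helper98.QM.dense_iso B hB hr hi c0 hc G hG

theorem discNe : DiscNe := fun _ _ _ _ B hB hr c0 hc =>
  Pool.Agent.Helper98.QM.disc_ne B hB hr c0 hc

/-- **Q2.** -/
theorem elim {H : Type} [CommRing H] {N : ℕ} (B : Matrix (Fin N) (Fin N) H) (hB : B.IsSymm)
    (c0 : Fin N → H) (c : MvPolynomial (Fin N) H) {Ω : Type} [Field Ω] (h : H →+* Ω)
    (hc : h (bil B c0 c0) ≠ 0) (u0 : Fin N → Ω) (hq : bil (B.map h) u0 u0 = 0)
    (hcu : eval₂ h u0 c ≠ 0) :
    ∃ g : H, h g ≠ 0 ∧ ∀ (L : Type) [Field L] [CharZero L] (χ : H →+* L), χ g ≠ 0 →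
      Rk3 (B.map χ) → Iso (B.map χ) →
      ∃ u : Fin N → L, bil (B.map χ) u u = 0 ∧ eval₂ χ u c ≠ 0 :=
  elim_of denseIso discNe B hB c0 c h hc u0 hq hcu

theorem elimStmt : Pool.Agent.Helper45.QM.ElimStmt := fun B hB c0 c _ _ h hc u0 hq hcu =>
  elim B hB c0 c h hc u0 hq hcu

/-- potential density from points of a ring -/
theorem pd_of_points (K : Type) [Field K] [NumberField K] {T : Type} [CommRing T] [Algebra K T]
    (d : T) (L : Type) [Field L] [Algebra K L] [FiniteDimensional K L]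
    (h : ∀ g : T, ¬ IsNilpotent (g * d) → ∃ χ : T →ₐ[K] L, χ (g * d) ≠ 0)
    (X : Scheme.{0}) (s : X ⟶ Spec (CommRingCat.of K))
    (hX : DominatedOver K X (Spec (CommRingCat.of (Localization.Away d))) s
      (Spec.map (CommRingCat.ofHom (algebraMap K (Localization.Away d))))) :
    PotentiallyDense K X s := by
  refine PotentiallyDense.of_dominated hX
    ⟨L, inferInstance, inferInstance, inferInstance, dense_ratPts_spec' K L _ fun g hg => ?_⟩
  obtain ⟨⟨g0, ⟨_, k, rfl⟩⟩, hg0⟩ := IsLocalization.surj (Submonoid.powers d) g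
  simp only at hg0
  have hu : IsUnit (algebraMap T (Localization.Away d) d) :=
    IsLocalization.Away.algebraMap_isUnit _
  have hn : ¬ IsNilpotent (g0 * d) := by
    intro hn
    apply hg
    have h1 := hn.map (algebraMap T (Localization.Away d))
    rw [map_mul, ← hg0, mul_assoc, map_pow] at h1
    have h2 : IsUnit (algebraMap T (Localization.Away d) d ^ k *
        algebraMap T (Localization.Away d) d) := (hu.pow k).mul hu
    exact ((Commute.all _ _).isNilpotent_mul_right_iff h2.mem_nonZeroDivisors.2).1 h1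
  obtain ⟨χ, hχ⟩ := h g0 hn
  rw [map_mul] at hχ
  have hf : ∀ y : Submonoid.powers d, IsUnit (χ y) := by
    rintro ⟨_, j, rfl⟩
    rw [map_pow]
    exact (IsUnit.mk0 _ (right_ne_zero_of_mul hχ)).pow j
  refine ⟨IsLocalization.liftAlgHom (M := Submonoid.powers d)
    (S := Localization.Away d) (f := χ) hf, fun h0 => ?_⟩
  apply left_ne_zero_of_mul hχ
  have h1 := congrArg (IsLocalization.liftAlgHom
    (M := Submonoid.powers d) (S := Localization.Away d) (f := χ) hf) hg0
  rw [map_mul, h0, zero_mul] at h1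
  rw [h1]
  exact (IsLocalization.lift_eq _ _).symm

/-- an anisotropic vector -/
theorem exists_aniso {R : Type} [CommRing R] [IsDomain R] [CharZero R] {N : ℕ}
    (B : Matrix (Fin N) (Fin N) R) (hB : B.IsSymm)
    (h : ∃ f g : Fin 3 → Fin N, (B.submatrix f g).det ≠ 0) :
    ∃ c : Fin N → R, bil B c c ≠ 0 := by
  classical
  obtain ⟨f, g, h⟩ := h
  by_contra hcon
  push Not at hcon
  apply h
  have hs : ∀ j k, bil B (Pi.single j 1) (Pi.single k 1) = B j k := fun j k => by
    rw [bil_eq, Matrix.toBilin'_single]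
  have h0 : ∀ j k, B j k = 0 := by
    intro j k
    have h1 := hcon (Pi.single j 1 + Pi.single k 1)
    have h2 := bil_line B hB (Pi.single j 1) (Pi.single k 1) 1
    rw [one_smul, h1, hcon, hcon, hs] at h2
    have h3 : (2 : R) * B j k = 0 := by linear_combination -h2
    rcases mul_eq_zero.1 h3 with h4 | h4
    · exact absurd h4 two_ne_zero
    · exact h4
  have h1 : B.submatrix f g = 0 := by
    ext j k
    exact h0 _ _
  rw [h1, Matrix.det_zero]

/-- a point at which a given element which is not nilpotent does not vanish -/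
theorem exists_field_point {T : Type} [CommRing T] (x : T) (hx : ¬ IsNilpotent x) :
    ∃ (Ω : Type) (_ : Field Ω) (π : T →+* Ω), π x ≠ 0 := by
  obtain ⟨𝔭, h𝔭, hx𝔭⟩ : ∃ 𝔭 : Ideal T, 𝔭.IsPrime ∧ x ∉ 𝔭 := by
    by_contra hcon
    push Not at hcon
    apply hx
    rw [← mem_nilradical, nilradical_eq_sInf, Ideal.mem_sInf]
    exact fun {J} hJ => hcon J hJ
  refine ⟨FractionRing (T ⧸ 𝔭), inferInstance,
    (algebraMap (T ⧸ 𝔭) (FractionRing (T ⧸ 𝔭))).comp (Ideal.Quotient.mk 𝔭), fun h0 => hx𝔭 ?_⟩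
  have h1 : Ideal.Quotient.mk 𝔭 x = 0 := by
    apply IsFractionRing.injective (T ⧸ 𝔭) (FractionRing (T ⧸ 𝔭))
    rw [map_zero]
    exact h0
  exact Ideal.Quotient.eq_zero_iff_mem.1 h1

/-- points of `QH` -/
theorem qh_points {K : Type} [Field K] {R : Type} [CommRing R] [Algebra K R]
    {r : ℕ} {N : Fin r → ℕ}
    (q : ∀ i : Fin r, Matrix (Fin (N i)) (Fin (N i)) R) (hq : ∀ i, (q i).IsSymm)
    (f g : ∀ i, Fin 3 → Fin (N i)) (c0 : ∀ i, Fin (N i) → R)
    (H : Type) [CommRing H] [Algebra R H] [Algebra K H] [IsScalarTower K R H]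
    (L : Type) [Field L] [CharZero L] [Algebra K L] (δ1 : R)
    (hH : ∀ g : H, ¬ IsNilpotent (g * algebraMap R H δ1) → ∃ χ : H →ₐ[K] L,
      (∀ i, Iso ((q i).map fun x => χ (algebraMap R H x))) ∧ χ (g * algebraMap R H δ1) ≠ 0)
    (δ : R) (hδ1 : δ1 ∣ δ) (hδ2 : ∀ i, ((q i).submatrix (f i) (g i)).det ∣ δ)
    (hδ3 : ∀ i, bil (q i) (c0 i) (c0 i) ∣ δ) (x : QH q H)
    (hx : ¬ IsNilpotent (x * algebraMap R (QH q H) δ)) :
    ∃ ψ : QH q H →ₐ[K] L, ψ (x * algebraMap R (QH q H) δ) ≠ 0 := by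
  classical
  obtain ⟨Ω, _, π, hπx⟩ := exists_field_point _ hx
  rw [map_mul] at hπx
  let mk := Ideal.Quotient.mk (Ideal.span
    (Set.range fun i : Fin r => ∑ j, ∑ k, MvPolynomial.C (algebraMap R H (q i j k)) *
      MvPolynomial.X (⟨i, j⟩ : Σ i : Fin r, Fin (N i)) *
        MvPolynomial.X (⟨i, k⟩ : Σ i : Fin r, Fin (N i))))
  obtain ⟨c, hc⟩ : ∃ c : MvPolynomial (Σ i : Fin r, Fin (N i)) H, mk c = x :=
    Ideal.Quotient.mk_surjective x
  let h : H →+* Ω := π.comp (mk.comp C)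
  let u0 : (Σ i : Fin r, Fin (N i)) → Ω := fun v => π (mk (X v))
  have hev : ∀ p, eval₂ h u0 p = π (mk p) := by
    intro p
    have h1 : eval₂Hom h u0 = π.comp mk := by
      refine MvPolynomial.ringHom_ext (fun a => ?_) (fun v => ?_)
      · rw [coe_eval₂Hom, eval₂_C]
        rfl
      · rw [coe_eval₂Hom, eval₂_X]
        rfl
    exact congrArg (fun F : MvPolynomial (Σ i : Fin r, Fin (N i)) H →+* Ω => F p) h1
  have hquad : ∀ {E : Type} [CommRing E] (χ : H →+* E) (u : (Σ i : Fin r, Fin (N i)) → E) (i),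
      eval₂ χ u (∑ j, ∑ k, MvPolynomial.C (algebraMap R H (q i j k)) *
      MvPolynomial.X (⟨i, j⟩ : Σ i : Fin r, Fin (N i)) *
        MvPolynomial.X (⟨i, k⟩ : Σ i : Fin r, Fin (N i))) =
      bil (((q i).map (algebraMap R H)).map χ) (fun j => u ⟨i, j⟩) (fun j => u ⟨i, j⟩) := by
    intro E _ χ u i
    unfold bil
    rw [← coe_eval₂Hom, map_sum]
    refine Finset.sum_congr rfl fun j _ => ?_
    rw [map_sum]
    refine Finset.sum_congr rfl fun k _ => ?_
    rw [map_mul, map_mul, coe_eval₂Hom, eval₂_C, eval₂_X, eval₂_X, Matrix.map_apply,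
      Matrix.map_apply]
    ring
  have hδh : h (algebraMap R H δ) = π (algebraMap R (QH q H) δ) := rfl
  have hdvd : ∀ y : R, y ∣ δ → h (algebraMap R H y) ≠ 0 := by
    rintro y ⟨z, hz⟩ h0
    apply right_ne_zero_of_mul hπx
    rw [← hδh, hz, map_mul, map_mul, h0, zero_mul]
  obtain ⟨g', hg', hL⟩ := Pool.Agent.Helper45.QM.elims (H := H) (r := r) (N := N) elimStmt (fun i => (q i).map (algebraMap R H))
    (fun i => (hq i).map _) (fun i j => algebraMap R H (c0 i j)) c h
    (fun i => by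
      rw [← map_bil' (algebraMap R H)]
      exact hdvd _ (hδ3 i)) u0
    (fun i => by
      rw [← hquad, hev]
      have h1 : mk (∑ j, ∑ k, MvPolynomial.C (algebraMap R H (q i j k)) *
        MvPolynomial.X (⟨i, j⟩ : Σ i : Fin r, Fin (N i)) *
        MvPolynomial.X (⟨i, k⟩ : Σ i : Fin r, Fin (N i))) = 0 :=
        Ideal.Quotient.eq_zero_iff_mem.2 (Ideal.subset_span ⟨i, rfl⟩)
      rw [h1, map_zero])
    (by
      rw [hev, hc]
      exact left_ne_zero_of_mul hπx)
  -- the point of `H`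
  obtain ⟨χ, hiso, hχ⟩ := hH (g' * algebraMap R H δ) (by
    intro hn
    have h1 := hn.map h
    rw [map_mul, map_mul] at h1
    exact (mul_ne_zero (mul_ne_zero hg' (hdvd δ dvd_rfl)) (hdvd δ1 hδ1)) h1.eq_zero)
  rw [map_mul, map_mul] at hχ
  have hχg : χ g' ≠ 0 := left_ne_zero_of_mul (left_ne_zero_of_mul hχ)
  have hχδ : χ (algebraMap R H δ) ≠ 0 := right_ne_zero_of_mul (left_ne_zero_of_mul hχ)
  obtain ⟨u, hu, hcu⟩ := hL L (χ : H →+* L) hχg
    (fun i => by
      refine ⟨f i, g i, fun h0 => hχδ ?_⟩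
      obtain ⟨z, hz⟩ := hδ2 i
      have h1 := RingHom.map_det ((χ : H →+* L).comp (algebraMap R H))
        ((q i).submatrix (f i) (g i))
      have h2 : ((χ : H →+* L).comp (algebraMap R H)) ((q i).submatrix (f i) (g i)).det = 0 := by
        rw [h1]
        exact h0
      rw [hz, map_mul, map_mul]
      have h3 : χ (algebraMap R H ((q i).submatrix (f i) (g i)).det) = 0 := h2
      rw [h3, zero_mul])
    (fun i => by
      have h1 := hiso i
      rw [show ((q i).map (algebraMap R H)).map (χ : H →+* L) =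
        (q i).map fun x => χ (algebraMap R H x) from rfl]
      exact h1)
  -- the point of `QH`
  have hker : ∀ p ∈ Ideal.span
    (Set.range fun i : Fin r => ∑ j, ∑ k, MvPolynomial.C (algebraMap R H (q i j k)) *
      MvPolynomial.X (⟨i, j⟩ : Σ i : Fin r, Fin (N i)) *
        MvPolynomial.X (⟨i, k⟩ : Σ i : Fin r, Fin (N i))), aevalTower χ u p = 0 := by
    intro p hp
    have h1 : Ideal.span
      (Set.range fun i : Fin r => ∑ j, ∑ k, MvPolynomial.C (algebraMap R H (q i j k)) *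
      MvPolynomial.X (⟨i, j⟩ : Σ i : Fin r, Fin (N i)) *
        MvPolynomial.X (⟨i, k⟩ : Σ i : Fin r, Fin (N i))) ≤ RingHom.ker (aevalTower χ u) := by
      rw [Ideal.span_le]
      rintro _ ⟨i, rfl⟩
      exact (hquad (χ : H →+* L) u i).trans (hu i)
    exact h1 hp
  refine ⟨Ideal.Quotient.liftₐ _ (aevalTower χ u) hker, ?_⟩
  rw [map_mul, ← hc]
  refine mul_ne_zero ?_ ?_
  · intro h0
    exact hcu h0
  · intro h0
    apply hχδ
    have h1 : (Ideal.Quotient.liftₐ _ (aevalTower χ u) hker) (algebraMap R (QH q H) δ) =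
        aevalTower χ u (C (algebraMap R H δ)) := rfl
    rw [h1, aevalTower_C] at h0
    exact h0

end Pool.Agent.Helper83.QM
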